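import Mathlib
import Pool.Agent.V11307.Abel.Main

set_option autoImplicit false

namespace Pool.Agent.Results.MP_3ec1f3_nt.QTwo

open Finset Pool.Agent.V11307.Abel Pool.Agent.Helper857.Pad

/-- **Q2 of MP_3ec1f3 (and hence Q1)**: for every prime `p > 3` and every `r ≥ 1`, with
`α = (p^r-1)/(p^(r+1)-1)` and `N = 1+p+⋯+p^r`,
`∑_{k < p^r} (2k/α+1) ((α)_k/k!)^{2N} ≡ 0 (mod p^{2r+5})`. -/
theorem result : ∀ p : ℕ, p.Prime → 3 < p → ∀ r : ℕ, 1 ≤ r →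
    ∀ α : ℚ, α = ((p:ℚ)^r - 1)/((p:ℚ)^(r+1) - 1) → ∀ N : ℕ, N = ∑ i ∈ range (r+1), p^i →
    ¬ p ∣ ((∑ k ∈ range (p^r), (2*(k:ℚ)/α + 1) *
        ((ascPochhammer ℚ k).eval α / (k.factorial : ℚ))^(2*N)) / (p:ℚ)^(2*r+5)).den := by
  intro p hp h3 r hr α hα N hN
  have : Fact p.Prime := ⟨hp⟩
  have hpos : 0 < p^r := pow_pos hp.pos r
  obtain ⟨n, hq⟩ : ∃ n, p^r = n + 1 := ⟨p^r-1, by omega⟩
  have hc : N = 1 + p * ∑ i ∈ range r, p^i := by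
    rw [hN, sum_range_succ', mul_sum, add_comm]
    simp [pow_succ, mul_comm]
  have hNd : ¬ p ∣ N := by
    intro hd
    rw [hc] at hd
    have := (Nat.dvd_add_left (dvd_mul_right p _)).mp hd
    exact hp.one_lt.ne' (Nat.dvd_one.mp this)
  have hN0 : (N:ℚ) ≠ 0 := N_ne hNd
  have h := conclude hr hq hNd (mainB hr hq hNd (by omega) (by omega) hc)
  have hgeo : (N:ℚ) * ((p:ℚ) - 1) = (p:ℚ)^(r+1) - 1 := by
    rw [hN]; push_cast; exact geom_sum_mul (p:ℚ) (r+1)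
  have hp1 : (1:ℚ) < (p:ℚ) := by exact_mod_cast hp.one_lt
  have hp0 : ((p:ℚ) - 1) ≠ 0 := by linarith
  have e1 : 1 + -(((n+1:ℕ)):ℚ)/(N:ℚ) = α := by
    rw [hα, ← hgeo, ← hq]
    push_cast
    rw [eq_div_iff (mul_ne_zero hN0 hp0)]
    field_simp
    linear_combination hgeo
  have e : ∑ k ∈ range (p^r), (2*(k:ℚ)/α + 1) *
        ((ascPochhammer ℚ k).eval α / (k.factorial : ℚ))^(2*N)
      = ∑ k ∈ range (n+1), (1 + 2*(k:ℚ)/(1 + -(((n+1:ℕ)):ℚ)/N)) * t (-(((n+1:ℕ)):ℚ)/N) k^(2*N) := by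
    rw [hq]
    refine sum_congr rfl (fun k _ => ?_)
    rw [t_eq, e1, add_comm]
  rw [e]
  exact I_den h

end Pool.Agent.Results.MP_3ec1f3_nt.QTwo
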